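import Pool.Agent.L0h29.AL.Defs

/-!
# Modules FRE and RIG of project AL: the free subgroup `⟨s, t⟩` and the rigidity of its tree
-/

set_option autoImplicit false

namespace Pool.Agent.L0h97.AL

open Pool.Agent.L0h29.AL

section

variable {G : Type*} [Group G]

lemma ev_nil (x : Bool → G) : ev x [] = 1 := rfl

lemma ev_cons (x : Bool → G) (a : Bool × ℤ) (l : List (Bool × ℤ)) :
    ev x (a :: l) = x a.1 ^ a.2 * ev x l := by simp [ev]

lemma ev_append (x : Bool → G) (l l' : List (Bool × ℤ)) :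
    ev x (l ++ l') = ev x l * ev x l' := by simp [ev]

lemma Syl_nil : Syl [] := ⟨List.isChain_nil, by simp⟩

lemma Syl_tail {a : Bool × ℤ} {l : List (Bool × ℤ)} (h : Syl (a :: l)) : Syl l :=
  ⟨(List.isChain_cons.1 h.1).2, fun b hb => h.2 b (List.mem_cons_of_mem _ hb)⟩

lemma Syl_cons {a : Bool × ℤ} {l : List (Bool × ℤ)} (ha : a.2 ≠ 0)
    (hl : ∀ b ∈ l.head?, a.1 ≠ b.1) (h : Syl l) : Syl (a :: l) :=
  ⟨List.isChain_cons.2 ⟨hl, h.1⟩, fun b hb => by
    rcases List.mem_cons.1 hb with rfl | hb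
    · exact ha
    · exact h.2 b hb⟩

lemma Syl_append {l l' : List (Bool × ℤ)} (h : Syl l) (h' : Syl l')
    (hh : ∀ a ∈ l.getLast?, ∀ b ∈ l'.head?, a.1 ≠ b.1) : Syl (l ++ l') :=
  ⟨List.isChain_append.2 ⟨h.1, h'.1, hh⟩, fun b hb => by
    rcases List.mem_append.1 hb with hb | hb
    · exact h.2 b hb
    · exact h'.2 b hb⟩

/-- the inverse word -/
def ivw (l : List (Bool × ℤ)) : List (Bool × ℤ) := (l.map fun a => (a.1, -a.2)).reverse

lemma ivw_cons (a : Bool × ℤ) (l : List (Bool × ℤ)) : ivw (a :: l) = ivw l ++ [(a.1, -a.2)] := by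
  simp [ivw]

lemma ev_ivw (x : Bool → G) (l : List (Bool × ℤ)) : ev x (ivw l) = (ev x l)⁻¹ := by
  induction l with
  | nil => simp [ivw, ev]
  | cons a l ih => rw [ivw_cons, ev_append, ih, ev_cons, ev_cons, ev_nil]; simp

lemma Syl_ivw {l : List (Bool × ℤ)} (h : Syl l) : Syl (ivw l) := by
  constructor
  · unfold ivw
    rw [List.isChain_reverse, List.isChain_map]
    exact h.1.imp fun a b hab => Ne.symm hab
  · intro a ha
    simp only [ivw, List.mem_reverse, List.mem_map] at ha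
    obtain ⟨b, hb, rfl⟩ := ha
    simpa using h.2 b hb

variable (S : Dat G)

lemma syl_red (l : List (Bool × ℤ)) (hl : Syl l) :
    (∀ y ∈ l.map (fun a => (a.1, S.x a.1 ^ a.2)), y.2 ∈ S.A y.1 ∧ y.2 ∉ S.C) ∧
    (l.map (fun a => (a.1, S.x a.1 ^ a.2))).IsChain (fun x y => x.1 ≠ y.1) ∧
    ((l.map (fun a => (a.1, S.x a.1 ^ a.2))).map Prod.snd).prod = ev S.x l := by
  refine ⟨?_, ?_, ?_⟩
  · intro y hy
    obtain ⟨a, ha, rfl⟩ := List.mem_map.1 hy
    exact ⟨zpow_mem (S.hx a.1) a.2, fun h => hl.2 a ha (S.pw _ _ h)⟩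
  · rw [List.isChain_map]; exact hl.1
  · rw [List.map_map]; rfl

/-- FRE (1) -/
lemma fre1 (l : List (Bool × ℤ)) (hl : Syl l) (h : ev S.x l ∈ S.C) : l = [] := by
  by_contra hne
  obtain ⟨h1, h2, h3⟩ := syl_red S l hl
  exact S.red _ (by simpa using hne) h1 h2 (h3 ▸ h)

/-- FRE (2) -/
lemma fre2 : ∀ l l' : List (Bool × ℤ), Syl l → Syl l' → ev S.x l = ev S.x l' → l = l'
  | [], l', _, hl', h => (fre1 S l' hl' (by rw [← h, ev_nil]; exact S.C.one_mem)).symm
  | a :: t, [], hl, _, h => fre1 S _ hl (by rw [h, ev_nil]; exact S.C.one_mem)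
  | (τ, k) :: t, (σ, j) :: t', hl, hl', h => by
    have h2 := ev_cons S.x (τ, k) t
    have h2' := ev_cons S.x (σ, j) t'
    have ht := (List.isChain_cons.1 hl.1).1
    have ht' := (List.isChain_cons.1 hl'.1).1
    by_cases hts : τ = σ
    · subst hts
      by_cases hkj : k = j
      · subst hkj
        have h3 : ev S.x t = ev S.x t' := by
          rw [h2, h2'] at h
          exact mul_left_cancel h
        rw [fre2 t t' (Syl_tail hl) (Syl_tail hl') h3]
      · exfalso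
        have h4 : Syl (ivw t ++ (τ, j - k) :: t') := by
          refine Syl_append (Syl_ivw (Syl_tail hl))
            (Syl_cons (by simpa [sub_eq_zero] using Ne.symm hkj) ht' (Syl_tail hl')) ?_
          intro a ha b hb
          obtain rfl : (τ, j - k) = b := by simpa using hb
          unfold ivw at ha
          rw [List.getLast?_reverse, List.head?_map] at ha
          obtain ⟨c, hc, rfl⟩ := Option.map_eq_some_iff.1 ha
          exact Ne.symm (ht c hc)
        have h5 : ev S.x (ivw t ++ (τ, j - k) :: t') = 1 := by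
          rw [ev_append, ev_ivw, ev_cons]
          rw [h2, h2'] at h
          have h6 : S.x τ ^ (j - k) * ev S.x t' = ev S.x t := by
            rw [sub_eq_neg_add, zpow_add, mul_assoc]
            simp only at h
            rw [← h, zpow_neg, inv_mul_cancel_left]
          rw [h6, inv_mul_cancel]
        have h6 := fre1 S _ h4 (by rw [h5]; exact S.C.one_mem)
        simp at h6
    · exfalso
      have h4 : Syl (ivw ((τ, k) :: t) ++ (σ, j) :: t') := by
        refine Syl_append (Syl_ivw hl) hl' ?_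
        intro a ha b hb
        obtain rfl : (σ, j) = b := by simpa using hb
        rw [ivw_cons] at ha
        obtain rfl : (τ, -k) = a := by simpa using ha
        exact hts
      have h5 : ev S.x (ivw ((τ, k) :: t) ++ (σ, j) :: t') = 1 := by
        rw [ev_append, ev_ivw, h, inv_mul_cancel]
      have h6 := fre1 S _ h4 (by rw [h5]; exact S.C.one_mem)
      simp at h6

lemma syl_mul (τ : Bool) (j : ℤ) (l : List (Bool × ℤ)) (hl : Syl l) :
    ∃ l', Syl l' ∧ ev S.x l' = S.x τ ^ j * ev S.x l := by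
  by_cases hj : j = 0
  · exact ⟨l, hl, by rw [hj]; simp⟩
  match l, hl with
  | [], _ => exact ⟨[(τ, j)], Syl_cons hj (by simp) Syl_nil, ev_cons _ _ _⟩
  | (σ, k) :: t, hl =>
    by_cases hts : τ = σ
    · subst hts
      have ht := (List.isChain_cons.1 hl.1).1
      by_cases hk : j + k = 0
      · refine ⟨t, Syl_tail hl, ?_⟩
        rw [ev_cons, ← mul_assoc, ← zpow_add, hk]; simp
      · refine ⟨(τ, j + k) :: t, Syl_cons hk ht (Syl_tail hl), ?_⟩
        rw [ev_cons, ev_cons, ← mul_assoc, ← zpow_add]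
    · exact ⟨(τ, j) :: (σ, k) :: t, Syl_cons hj (by simpa using hts) hl, ev_cons _ _ _⟩

/-- FRE (3) -/
lemma fre3 (f : G) (hf : f ∈ Subgroup.closure (Set.range S.x)) : ∃ l, Syl l ∧ ev S.x l = f := by
  induction hf using Subgroup.closure_induction_left with
  | one => exact ⟨[], Syl_nil, rfl⟩
  | mul_left x hx y hy ih =>
    obtain ⟨τ, rfl⟩ := hx
    obtain ⟨l, hl, rfl⟩ := ih
    simpa using syl_mul S τ 1 l hl
  | inv_mul_cancel x hx y hy ih =>
    obtain ⟨τ, rfl⟩ := hx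
    obtain ⟨l, hl, rfl⟩ := ih
    simpa using syl_mul S τ (-1) l hl

/-- FRE (4) -/
lemma fre4 (f : G) (hf : f ∈ Subgroup.closure (Set.range S.x)) (h : f ∈ S.C) : f = 1 := by
  obtain ⟨l, hl, rfl⟩ := fre3 S f hf
  rw [fre1 S l hl h, ev_nil]

/-- FRE (5) -/
lemma fre5 (τ : Bool) (f : G) (hf : f ∈ Subgroup.closure (Set.range S.x)) (h : f ∈ S.A τ) :
    ∃ k : ℤ, f = S.x τ ^ k := by
  by_cases hC : f ∈ S.C
  · exact ⟨0, by rw [fre4 S f hf hC, zpow_zero]⟩
  obtain ⟨l, hl, hlf⟩ := fre3 S f hf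
  match l, hl, hlf with
  | [], _, hlf => exact ⟨0, by rw [← hlf, ev_nil, zpow_zero]⟩
  | (σ, k) :: t, hl, hlf =>
    obtain ⟨h1, h2, h3⟩ := syl_red S _ hl
    by_cases hts : τ = σ
    · subst hts
      match t, hl, hlf with
      | [], _, hlf => exact ⟨k, by rw [← hlf, ev_cons, ev_nil, mul_one]⟩
      | b :: t, hl, hlf =>
        exfalso
        obtain ⟨h1', h2', h3'⟩ := syl_red S _ (Syl_tail hl)
        have ht := (List.isChain_cons.1 hl.1).1
        rw [ev_cons] at hlf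
        simp only at hlf
        have hg : f⁻¹ * S.x τ ^ k ∈ S.A τ := mul_mem (inv_mem h) (zpow_mem (S.hx τ) k)
        have hg' : ev S.x (b :: t) = (f⁻¹ * S.x τ ^ k)⁻¹ := by
          rw [← hlf]; group
        by_cases hgC : f⁻¹ * S.x τ ^ k ∈ S.C
        · have := fre1 S _ (Syl_tail hl) (by rw [hg']; exact inv_mem hgC)
          simp at this
        · refine S.red ((τ, f⁻¹ * S.x τ ^ k) ::
            (b :: t).map (fun a => (a.1, S.x a.1 ^ a.2))) (by simp) ?_ ?_ ?_
          · intro y hy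
            rcases List.mem_cons.1 hy with rfl | hy
            · exact ⟨hg, hgC⟩
            · exact h1' y hy
          · refine List.isChain_cons.2 ⟨?_, h2'⟩
            intro y hy
            obtain rfl : (b.1, S.x b.1 ^ b.2) = y := by simpa using hy
            exact ht b (by simp)
          · rw [List.map_cons, List.prod_cons, h3', hg']
            simp [S.C.one_mem]
    · exfalso
      refine S.red ((τ, f⁻¹) :: ((σ, k) :: t).map (fun a => (a.1, S.x a.1 ^ a.2)))
        (by simp) ?_ ?_ ?_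
      · intro y hy
        rcases List.mem_cons.1 hy with rfl | hy
        · exact ⟨inv_mem h, fun h' => hC (by simpa using inv_mem h')⟩
        · exact h1 y hy
      · refine List.isChain_cons.2 ⟨?_, h2⟩
        intro y hy
        obtain rfl : (σ, S.x σ ^ k) = y := by simpa using hy
        exact hts
      · rw [List.map_cons, List.prod_cons, h3, hlf]
        simp [S.C.one_mem]

lemma rig_aux (h f f1 z : G) (hf1 : f1 ∈ Subgroup.closure (Set.range S.x)) (hz : z ∈ S.C)
    (hh : h = f * z * f1⁻¹) (τ : Bool) (ε : ℤˣ)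
    (ha : S.Ed h ((f * S.x τ ^ (ε : ℤ) : G) : G ⧸ S.C)) : Commute z (S.x τ) := by
  obtain ⟨f2, hf2, he⟩ := ha
  rw [QuotientGroup.eq] at he
  have h1 : (f * S.x τ ^ (ε : ℤ))⁻¹ * (h * f2) = (S.x τ ^ (ε : ℤ))⁻¹ * z * (f1⁻¹ * f2) := by
    rw [hh]; group
  rw [h1] at he
  have h3 : f1⁻¹ * f2 ∈ Subgroup.closure (Set.range S.x) := mul_mem (inv_mem hf1) hf2
  have h4 : f1⁻¹ * f2 ∈ S.A τ := by
    have e : f1⁻¹ * f2 = z⁻¹ * S.x τ ^ (ε : ℤ) *
        ((S.x τ ^ (ε : ℤ))⁻¹ * z * (f1⁻¹ * f2)) := by group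
    rw [e]
    exact mul_mem (mul_mem (inv_mem (S.le τ hz)) (zpow_mem (S.hx τ) _)) (S.le τ he)
  obtain ⟨j, hj⟩ := fre5 S τ _ h3 h4
  rw [hj] at he
  have h5 : S.x τ ^ (-j) * z⁻¹ * S.x τ ^ (ε : ℤ) ∈ S.C := by
    have e : S.x τ ^ (-j) * z⁻¹ * S.x τ ^ (ε : ℤ) = ((S.x τ ^ (ε : ℤ))⁻¹ * z * S.x τ ^ j)⁻¹ := by
      group
    rw [e]; exact inv_mem he
  have hodd : Odd (ε : ℤ) := by
    rcases Int.units_eq_one_or ε with rfl | rfl
    · exact odd_one
    · exact ⟨-1, by norm_num⟩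
  have := S.two τ z⁻¹ (inv_mem hz) (-j) ε hodd h5
  exact Commute.inv_left_iff.1 this

end

theorem t_FRE.{u} : S_FRE.{u} := fun _ _ S => ⟨fre1 S, fre2 S, fre3 S, fre4 S, fre5 S⟩

theorem t_RIG.{u} : S_RIG.{u} := by
  intro G _ S h a b c hU hEa hEb hEc
  obtain ⟨f, hf, τ, ε, ε', rfl, rfl, rfl⟩ := hU
  rw [one_mul] at hEa hEb hEc
  obtain ⟨f1, hf1, hb⟩ := hEb
  rw [QuotientGroup.eq] at hb
  have hh : h = f * (f⁻¹ * (h * f1)) * f1⁻¹ := by group
  have c1 := rig_aux S h f f1 _ hf1 hb hh τ ε hEa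
  have c2 := rig_aux S h f f1 _ hf1 hb hh (!τ) ε' hEc
  have c3 : ∀ σ, Commute (f⁻¹ * (h * f1)) (S.x σ) := by
    intro σ
    by_cases hσ : σ = τ
    · rw [hσ]; exact c1
    · have : σ = !τ := by
        clear c1 c2 hb hh
        revert hσ; cases σ <;> cases τ <;> decide
      rw [this]; exact c2
  refine ⟨_, hb, c3, ?_⟩
  have c4 : Commute (f⁻¹ * (h * f1)) f := by
    have : Subgroup.closure (Set.range S.x) ≤ Subgroup.centralizer {f⁻¹ * (h * f1)} := by
      rw [Subgroup.closure_le]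
      rintro _ ⟨σ, rfl⟩
      rw [SetLike.mem_coe, Subgroup.mem_centralizer_singleton_iff]
      exact (c3 σ).eq.symm
    exact (Subgroup.mem_centralizer_singleton_iff.1 (this hf)).symm
  have e : (f⁻¹ * (h * f1))⁻¹ * h = f * f1⁻¹ := by
    have h1 := c4.eq
    rw [inv_mul_eq_iff_eq_mul]
    calc h = f * (f⁻¹ * (h * f1)) * f1⁻¹ := hh
      _ = (f⁻¹ * (h * f1)) * f * f1⁻¹ := by rw [h1]
      _ = _ := by group
  rw [e]
  exact mul_mem hf (inv_mem hf1)

end Pool.Agent.L0h97.AL
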