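import Pool.Agent.L0h29.AL.Defs

/-!
# Module TRE of project AL: the Bass–Serre tree of an amalgam
-/

set_option autoImplicit false

namespace Pool.Agent.L0h97.AL

open Pool.Agent.L0h29.AL

section

variable {G : Type*} [Group G] (S : Amal G)

lemma rel_mk (τ : Bool) (g h : G) :
    S.rel τ (g : G ⧸ S.C) (h : G ⧸ S.C) ↔ g⁻¹ * h ∈ S.A τ := by
  unfold Amal.rel
  change ((g : G ⧸ S.A τ) = (h : G ⧸ S.A τ)) ↔ _
  exact QuotientGroup.eq

lemma rel_refl (τ : Bool) (a : G ⧸ S.C) : S.rel τ a a := rfl

lemma rel_symm {τ : Bool} {a b : G ⧸ S.C} (h : S.rel τ a b) : S.rel τ b a := Eq.symm h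

lemma rel_trans {τ : Bool} {a b c : G ⧸ S.C} (h : S.rel τ a b) (h' : S.rel τ b c) :
    S.rel τ a c := Eq.trans h h'

lemma inf_le {x : G} (h : x ∈ S.A true) (h' : x ∈ S.A false) : x ∈ S.C := by
  by_contra hx
  refine S.red [(true, x), (false, x⁻¹)] (by simp) ?_ (by simp) ?_
  · intro y hy
    simp only [List.mem_cons, List.not_mem_nil, or_false] at hy
    rcases hy with rfl | rfl
    · exact ⟨h, hx⟩
    · exact ⟨inv_mem h', fun h1 => hx (by simpa using inv_mem h1)⟩
  · simp [S.C.one_mem]

lemma meet' {a b : G ⧸ S.C} (h : S.rel true a b) (h' : S.rel false a b) : a = b := by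
  induction a using QuotientGroup.induction_on with
  | H g =>
    induction b using QuotientGroup.induction_on with
    | H k =>
      exact QuotientGroup.eq.2 (inf_le S ((rel_mk S _ _ _).1 h) ((rel_mk S _ _ _).1 h'))

lemma rel_unique {a b : G ⧸ S.C} (hab : a ≠ b) {τ τ' : Bool} (h : S.rel τ a b)
    (h' : S.rel τ' a b) : τ = τ' := by
  by_contra hne
  apply hab
  cases τ <;> cases τ' <;> first | exact absurd rfl hne | exact meet' S h h' | exact meet' S h' h

lemma step {p' p q : G ⧸ S.C} {τ : Bool} (h : S.rel τ p' p) {l : List (G ⧸ S.C)}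
    (hl : Pth S.rel p q l) : ∃ l', Pth S.rel p' q l' := by
  by_cases hpp : p' = p
  · exact ⟨l, hpp ▸ hl⟩
  obtain ⟨h1, h2, h3⟩ := hl
  match l, h1, h2, h3 with
  | [], _, h2, _ => simp at h2
  | [a], _, h2, h3 =>
    obtain rfl : a = p := by simpa using h2
    refine ⟨[p', a], ⟨hpp, τ, h⟩, rfl, ?_⟩
    simpa using h3
  | a :: b :: t, h1, h2, h3 =>
    obtain rfl : a = p := by simpa using h2
    have hadj : Adj S.rel a b := by
      cases t with
      | nil => exact h1
      | cons c t => exact h1.1
    by_cases hτ : S.rel τ a b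
    · by_cases hb : p' = b
      · subst hb
        refine ⟨p' :: t, ?_, rfl, ?_⟩
        · cases t with
          | nil => trivial
          | cons c t => exact h1.2.2
        · simpa using h3
      · refine ⟨p' :: b :: t, ?_, rfl, ?_⟩
        · have h4 : S.rel τ p' b := rel_trans S h hτ
          cases t with
          | nil => exact ⟨hb, τ, h4⟩
          | cons c t =>
            refine ⟨⟨hb, τ, h4⟩, ?_, h1.2.2⟩
            intro τ' h5
            have : τ' = τ := rel_unique S hb h5 h4
            subst this
            exact h1.2.1 τ' hτ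
        · simpa using h3
    · refine ⟨p' :: a :: b :: t, ⟨⟨hpp, τ, h⟩, ?_, h1⟩, rfl, ?_⟩
      · intro τ' h5
        have : τ' = τ := rel_unique S hpp h5 h
        subst this
        exact hτ
      · simpa using h3

lemma conn' (p q : G ⧸ S.C) : ∃ l, Pth S.rel p q l := by
  induction p using QuotientGroup.induction_on with
  | H g =>
    induction q using QuotientGroup.induction_on with
    | H k =>
      have key : ∀ x ∈ Subgroup.closure ((S.A true : Set G) ∪ (S.A false : Set G)),
          ∃ l, Pth S.rel ((k * x : G) : G ⧸ S.C) (k : G ⧸ S.C) l := by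
        intro x hx
        induction hx using Subgroup.closure_induction_right with
        | one => exact ⟨[(k : G ⧸ S.C)], trivial, by simp, rfl⟩
        | mul_right x hx y hy ih =>
          obtain ⟨l, hl⟩ := ih
          rcases hy with hy | hy
          · refine step S (τ := true) ((rel_mk S _ _ _).2 ?_) hl
            have : (k * (x * y))⁻¹ * (k * x) = y⁻¹ := by group
            rw [this]; exact inv_mem hy
          · refine step S (τ := false) ((rel_mk S _ _ _).2 ?_) hl
            have : (k * (x * y))⁻¹ * (k * x) = y⁻¹ := by group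
            rw [this]; exact inv_mem hy
        | mul_inv_cancel x hx y hy ih =>
          obtain ⟨l, hl⟩ := ih
          rcases hy with hy | hy
          · refine step S (τ := true) ((rel_mk S _ _ _).2 ?_) hl
            have : (k * (x * y⁻¹))⁻¹ * (k * x) = y := by group
            rw [this]; exact hy
          · refine step S (τ := false) ((rel_mk S _ _ _).2 ?_) hl
            have : (k * (x * y⁻¹))⁻¹ * (k * x) = y := by group
            rw [this]; exact hy
      have h1 : k⁻¹ * g ∈ Subgroup.closure ((S.A true : Set G) ∪ (S.A false : Set G)) := by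
        have : Subgroup.closure ((S.A true : Set G) ∪ (S.A false : Set G)) = S.A true ⊔ S.A false := by
          rw [Subgroup.closure_union, Subgroup.closure_eq, Subgroup.closure_eq]
        rw [this, S.gen]; exact Subgroup.mem_top _
      have := key _ h1
      simpa using this

lemma walk : ∀ (t : List (G ⧸ S.C)) (a b : G ⧸ S.C) (g : G), Alt S.rel (a :: b :: t) →
    a = (g : G ⧸ S.C) → ∃ w : List (Bool × G), w ≠ [] ∧ (∀ x ∈ w, x.2 ∈ S.A x.1 ∧ x.2 ∉ S.C) ∧
      w.IsChain (fun x y => x.1 ≠ y.1) ∧ (∀ x ∈ w.head?, S.rel x.1 a b) ∧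
      (b :: t).getLast? = some ((g * (w.map Prod.snd).prod : G) : G ⧸ S.C) := by
  intro t
  induction t with
  | nil =>
    intro a b g h hg
    obtain ⟨hne, τ, hτ⟩ : Adj S.rel a b := h
    subst hg
    induction b using QuotientGroup.induction_on with
    | H k =>
      refine ⟨[(τ, g⁻¹ * k)], by simp, ?_, by simp, ?_, ?_⟩
      · intro x hx
        rw [List.mem_singleton] at hx
        subst hx
        exact ⟨(rel_mk S _ _ _).1 hτ, fun h => hne (QuotientGroup.eq.2 h)⟩
      · intro x hx
        simp at hx
        subst hx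
        exact hτ
      · simp
  | cons c t ih =>
    intro a b g h hg
    obtain ⟨⟨hne, τ, hτ⟩, hturn, halt⟩ := h
    subst hg
    induction b using QuotientGroup.induction_on with
    | H k =>
      obtain ⟨w, hw1, hw2, hw3, hw4, hw5⟩ := ih _ _ k halt rfl
      refine ⟨(τ, g⁻¹ * k) :: w, by simp, ?_, ?_, ?_, ?_⟩
      · intro x hx
        rcases List.mem_cons.1 hx with rfl | hx
        · exact ⟨(rel_mk S _ _ _).1 hτ, fun h => hne (QuotientGroup.eq.2 h)⟩
        · exact hw2 x hx
      · rw [List.isChain_cons]
        refine ⟨?_, hw3⟩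
        intro y hy hyτ
        have := hw4 y hy
        rw [← hyτ] at this
        exact hturn τ hτ this
      · intro x hx
        simp at hx
        subst hx
        exact hτ
      · rw [List.getLast?_cons_cons, hw5]
        simp [mul_assoc]

lemma noloop' (p : G ⧸ S.C) (l : List (G ⧸ S.C)) (h : Pth S.rel p p l) : l = [p] := by
  obtain ⟨h1, h2, h3⟩ := h
  match l, h1, h2, h3 with
  | [], _, h2, _ => simp at h2
  | [a], _, h2, h3 => simpa using h2
  | a :: b :: t, h1, h2, h3 =>
    exfalso
    obtain rfl : a = p := by simpa using h2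
    induction a using QuotientGroup.induction_on with
    | H g =>
      obtain ⟨w, hw1, hw2, hw3, -, hw5⟩ := walk S t _ b g h1 rfl
      rw [List.getLast?_cons_cons, hw5, Option.some_inj, QuotientGroup.eq] at h3
      refine S.red w hw1 hw2 hw3 ?_
      have := inv_mem h3
      simpa [mul_assoc] using this

end

theorem t_TRE.{u} : S_TRE.{u} := by
  intro G _ S
  exact ⟨⟨S.rel, fun τ => ⟨rel_refl S τ, fun h => rel_symm S h, fun h h' => rel_trans S h h'⟩,
    fun a b h h' => meet' S h h', conn' S, noloop' S⟩, rfl⟩

end Pool.Agent.L0h97.AL
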