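import Pool.Agent.L0h29.AL.Defs

/-!
# Modules UNQ, TRI, CRS, SUB of project AL: geodesic edge paths in a bipartite tree
-/

set_option autoImplicit false

namespace Pool.Agent.L0h97.AL

open Pool.Agent.L0h29.AL

/-! ### Lists -/

section lists

variable {E : Type*} {r : Bool → E → E → Prop}

lemma alt_tail {a : E} {l : List E} (h : Alt r (a :: l)) : Alt r l := by
  match l, h with
  | [], _ => trivial
  | [_], _ => trivial
  | _ :: _ :: _, h => exact h.2.2

lemma alt_adj {a b : E} {l : List E} (h : Alt r (a :: b :: l)) : Adj r a b := by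
  match l, h with
  | [], h => exact h
  | _ :: _, h => exact h.1

lemma alt_glue : ∀ (u : List E) (a b : E) (v : List E), Alt r (u ++ [a, b]) →
    Alt r (a :: b :: v) → Alt r (u ++ a :: b :: v)
  | [], _, _, _, _, h => h
  | [_], _, _, _, h, h' => ⟨h.1, h.2.1, h'⟩
  | [_, y], a, b, v, h, h' => ⟨h.1, h.2.1, alt_glue [y] a b v h.2.2 h'⟩
  | _ :: y :: z :: u, a, b, v, h, h' => ⟨h.1, h.2.1, alt_glue (y :: z :: u) a b v h.2.2 h'⟩

lemma alt_right : ∀ (u v : List E), Alt r (u ++ v) → Alt r v
  | [], _, h => h
  | _ :: u, v, h => alt_right u v (alt_tail h)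

lemma alt_left : ∀ (u v : List E), Alt r (u ++ v) → Alt r u
  | [], _, _ => trivial
  | [_], _, _ => trivial
  | [_, _], _, h => alt_adj h
  | _ :: y :: z :: u, v, h => ⟨h.1, h.2.1, alt_left (y :: z :: u) v h.2.2⟩

lemma alt_reverse (hr : ∀ τ a b, r τ a b → r τ b a) : ∀ l : List E, Alt r l → Alt r l.reverse
  | [], _ => trivial
  | [_], _ => trivial
  | [_, _], h => ⟨fun e => h.1 e.symm, h.2.imp fun τ h => hr τ _ _ h⟩
  | a :: b :: c :: t, h => by
    have h1 : Alt r (t.reverse ++ [c, b]) := by
      simpa using alt_reverse hr (b :: c :: t) h.2.2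
    have h2 : Alt r (c :: b :: [a]) := by
      have h3 := alt_adj h.2.2
      refine ⟨⟨fun e => h3.1 e.symm, h3.2.imp fun τ h => hr τ _ _ h⟩, ?_, fun e => h.1.1 e.symm,
        h.1.2.imp fun τ h => hr τ _ _ h⟩
      intro τ h4 h5
      exact h.2.1 τ (hr _ _ _ h5) (hr _ _ _ h4)
    simpa using alt_glue _ _ _ _ h1 h2

variable (U : E → E → E → Prop)

lemma cnt_nil : cnt U [] = 0 := rfl

lemma cnt_one (a : E) : cnt U [a] = 0 := rfl

lemma cnt_two (a b : E) : cnt U [a, b] = 0 := rfl

open Classical in
lemma cnt_cons (a b c : E) (l : List E) :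
    cnt U (a :: b :: c :: l) = (if U a b c then 1 else 0) + cnt U (b :: c :: l) := by
  rw [cnt]

lemma cnt_tail_le (a : E) (l : List E) : cnt U l ≤ cnt U (a :: l) := by
  match l with
  | [] => exact Nat.zero_le _
  | [_] => exact Nat.zero_le _
  | b :: c :: l => rw [cnt_cons]; exact Nat.le_add_left _ _

lemma cnt_cons_le (a : E) (l : List E) : cnt U (a :: l) ≤ cnt U l + 1 := by
  match l with
  | [] => exact Nat.zero_le _
  | [_] => exact Nat.zero_le _
  | b :: c :: l => rw [cnt_cons]; split_ifs <;> omega

lemma cnt_append_le : ∀ (u v : List E), cnt U (u ++ v) ≤ cnt U u + cnt U v + 2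
  | [], v => by simp only [List.nil_append, cnt_nil]; omega
  | [a], v => by
    have := cnt_cons_le U a v
    simp only [List.cons_append, List.nil_append]; omega
  | [a, b], v => by
    have := cnt_cons_le U a (b :: v)
    have := cnt_cons_le U b v
    simp only [List.cons_append, List.nil_append]; omega
  | a :: b :: c :: u, v => by
    have := cnt_append_le (b :: c :: u) v
    simp only [List.cons_append] at this ⊢
    rw [cnt_cons, cnt_cons]; omega

lemma cnt_glue : ∀ (u : List E) (a b : E) (v : List E),
    cnt U (u ++ a :: b :: v) = cnt U (u ++ [a, b]) + cnt U (a :: b :: v)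
  | [], _, _, _ => by simp [cnt_two]
  | [x], a, b, v => by
    simp only [List.cons_append, List.nil_append]
    rw [cnt_cons, cnt_cons, cnt_two]; omega
  | [x, y], a, b, v => by
    have := cnt_glue [y] a b v
    simp only [List.cons_append, List.nil_append] at this ⊢
    rw [cnt_cons, cnt_cons _ x, this]; omega
  | x :: y :: z :: u, a, b, v => by
    have := cnt_glue (y :: z :: u) a b v
    simp only [List.cons_append] at this ⊢
    rw [cnt_cons, cnt_cons _ x, this]; omega

lemma cnt_reverse : ∀ l : List E, cnt U l.reverse = cnt (fun a b c => U c b a) l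
  | [] => rfl
  | [_] => rfl
  | [_, _] => rfl
  | a :: b :: c :: t => by
    have h := cnt_reverse (b :: c :: t)
    have : (a :: b :: c :: t).reverse = t.reverse ++ c :: b :: [a] := by simp
    rw [this, cnt_glue, cnt_cons, cnt_cons, ← h, cnt_two]
    simp only [List.reverse_cons, List.append_assoc, List.cons_append, List.nil_append]
    omega

lemma cnt_split_le : ∀ (u : List E) (y : E) (v : List E),
    cnt U (u ++ [y]) + cnt U (y :: v) ≤ cnt U (u ++ y :: v)
  | [], y, v => by simp [cnt_one]
  | [a], y, v => by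
    have := cnt_tail_le U a (y :: v)
    simp only [List.cons_append, List.nil_append, cnt_two]; omega
  | [a, b], y, v => by
    have := cnt_tail_le U b (y :: v)
    simp only [List.cons_append, List.nil_append]
    rw [cnt_cons, cnt_cons, cnt_two]; omega
  | a :: b :: c :: u, y, v => by
    have := cnt_split_le (b :: c :: u) y v
    simp only [List.cons_append] at this ⊢
    rw [cnt_cons, cnt_cons]; omega

lemma cnt_le_length : ∀ l : List E, cnt U l ≤ l.length - 2
  | [] => le_rfl
  | [_] => le_rfl
  | [_, _] => le_rfl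
  | a :: b :: c :: t => by
    have := cnt_le_length (b :: c :: t)
    rw [cnt_cons]
    simp only [List.length_cons] at this ⊢
    split_ifs <;> omega

lemma exists_of_cnt_ne : ∀ l : List E, cnt U l ≠ 0 → ∃ (u : List E) (a b c : E) (v : List E),
    l = u ++ a :: b :: c :: v ∧ U a b c
  | [], h => absurd rfl h
  | [_], h => absurd rfl h
  | [_, _], h => absurd rfl h
  | a :: b :: c :: t, h => by
    by_cases hU : U a b c
    · exact ⟨[], a, b, c, t, rfl, hU⟩
    · rw [cnt_cons, if_neg hU, zero_add] at h
      obtain ⟨u, a', b', c', v, h1, h2⟩ := exists_of_cnt_ne (b :: c :: t) h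
      exact ⟨a :: u, a', b', c', v, by rw [h1]; rfl, h2⟩

end lists

/-! ### Trees -/

section trees

variable {E : Type*} (T : ETree E)

lemma T_symm (τ : Bool) {a b : E} (h : T.r τ a b) : T.r τ b a := (T.req τ).symm h

lemma T_unique {a b : E} (hab : a ≠ b) {τ τ' : Bool} (h : T.r τ a b) (h' : T.r τ' a b) :
    τ = τ' := by
  by_contra hne
  apply hab
  cases τ <;> cases τ' <;> first | exact absurd rfl hne | exact T.meet _ _ h h' | exact T.meet _ _ h' h

lemma adj_symm {a b : E} (h : Adj T.r a b) : Adj T.r b a :=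
  ⟨fun e => h.1 e.symm, h.2.imp fun _ h => T_symm T _ h⟩

/-- The first edge can be replaced by another edge at the same vertex. -/
lemma alt_swap {p y x : E} {s : List E} {τ : Bool} (h : Alt T.r (p :: x :: s)) (hp : T.r τ p x)
    (hy : T.r τ y x) (hyx : y ≠ x) : Alt T.r (y :: x :: s) := by
  match s, h with
  | [], _ => exact ⟨hyx, τ, hy⟩
  | c :: t, h =>
    refine ⟨⟨hyx, τ, hy⟩, ?_, h.2.2⟩
    intro τ' h1
    obtain rfl : τ' = τ := T_unique T hyx h1 hy
    exact h.2.1 τ' hp

/-- Two paths which start at the same edge and have different second edges. -/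
lemma fork {q x y : E} {s s' : List E} (h : Alt T.r (q :: x :: s)) (h' : Alt T.r (q :: y :: s'))
    (hxy : x ≠ y) : Alt T.r ((x :: s).reverse ++ (y :: s')) ∨
      Alt T.r ((q :: x :: s).reverse ++ (y :: s')) := by
  obtain ⟨hqx, τ, hτ⟩ := alt_adj h
  obtain ⟨hqy, σ, hσ⟩ := alt_adj h'
  by_cases hts : τ = σ
  · subst hts
    left
    have h1 : T.r τ y x := (T.req τ).trans (T_symm T _ hσ) hτ
    have h2 : Alt T.r (y :: x :: s) := alt_swap T h hτ h1 (Ne.symm hxy)
    have h3 : Alt T.r (x :: y :: s') := alt_swap T h' hσ (T_symm T _ h1) hxy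
    have h4 := alt_reverse (fun τ _ _ h => T_symm T τ h) _ h2
    have h5 : (y :: x :: s).reverse = s.reverse ++ [x, y] := by simp
    rw [h5] at h4
    have h6 := alt_glue _ _ _ _ h4 h3
    have h7 : (x :: s).reverse ++ (y :: s') = s.reverse ++ x :: y :: s' := by simp
    rwa [h7]
  · right
    have h4 := alt_reverse (fun τ _ _ h => T_symm T τ h) _ h
    have h5 : (q :: x :: s).reverse = s.reverse ++ [x, q] := by simp
    rw [h5] at h4
    have h3 : Alt T.r (x :: q :: y :: s') := by
      refine ⟨adj_symm T (alt_adj h), ?_, h'⟩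
      intro τ' h6 h7
      have e1 : τ' = τ := T_unique T hqx (T_symm T _ h6) hτ
      have e2 : τ' = σ := T_unique T hqy h7 hσ
      exact hts (e1.symm.trans e2)
    have h6 := alt_glue _ _ _ _ h4 h3
    have h7 : (q :: x :: s).reverse ++ (y :: s') = s.reverse ++ x :: q :: y :: s' := by simp
    rwa [h7]

lemma unq : ∀ (l l' : List E) (p q : E), Pth T.r p q l → Pth T.r p q l' → l = l'
  | [], _, _, _, h, _ => absurd h.2.1 (by simp)
  | [a], l', p, q, h, h' => by
    obtain rfl : a = p := by simpa using h.2.1
    obtain rfl : a = q := by simpa using h.2.2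
    exact (T.noloop _ _ h').symm
  | _ :: _ :: _, [], _, _, _, h' => absurd h'.2.1 (by simp)
  | a :: x :: s, [b], p, q, h, h' => by
    obtain rfl : b = p := by simpa using h'.2.1
    obtain rfl : b = q := by simpa using h'.2.2
    exact T.noloop _ _ h
  | a :: x :: s, b :: y :: s', p, q, h, h' => by
    obtain rfl : a = p := by simpa using h.2.1
    obtain rfl : b = a := by simpa using h'.2.1
    have h1 : (x :: s).getLast? = some q := by simpa using h.2.2
    have h1' : (y :: s').getLast? = some q := by simpa using h'.2.2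
    by_cases hxy : x = y
    · subst hxy
      rw [unq (x :: s) (x :: s') x q ⟨alt_tail h.1, rfl, h1⟩ ⟨alt_tail h'.1, rfl, h1'⟩]
    · exfalso
      rcases fork T h.1 h'.1 hxy with h2 | h2
      · have h3 := T.noloop q _ ⟨h2, by rw [List.head?_append, List.head?_reverse, h1]; rfl,
          by rw [List.getLast?_append, h1']; rfl⟩
        have := congrArg List.length h3
        simp at this
        omega
      · have h3 := T.noloop q _ ⟨h2, by rw [List.head?_append, List.head?_reverse, h.2.2]; rfl,
          by rw [List.getLast?_append, h1']; rfl⟩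
        have := congrArg List.length h3
        simp at this
        omega

lemma tri (U : E → E → E → Prop) : ∀ (m l' l'' : List E) (p q r : E), Pth T.r q p m →
    Pth T.r q r l' → Pth T.r p r l'' →
    cnt U l'' ≤ cnt (fun a b c => U c b a) m + cnt U l' + 2
  | [], _, _, _, _, _, h, _, _ => absurd h.2.1 (by simp)
  | [a], l', l'', p, q, r, h, h', h'' => by
    obtain rfl : a = q := by simpa using h.2.1
    obtain rfl : a = p := by simpa using h.2.2
    rw [unq T _ _ _ _ h' h'']; omega
  | _ :: _ :: _, [], _, _, _, _, _, h', _ => absurd h'.2.1 (by simp)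
  | a :: x :: s, [b], l'', p, q, r, h, h', h'' => by
    obtain rfl : b = q := by simpa using h'.2.1
    obtain rfl : b = r := by simpa using h'.2.2
    have h1 : Pth T.r p b (a :: x :: s).reverse :=
      ⟨alt_reverse (fun τ _ _ h => T_symm T τ h) _ h.1, by rw [List.head?_reverse, h.2.2],
        by rw [List.getLast?_reverse, h.2.1]⟩
    rw [← unq T _ _ _ _ h1 h'', cnt_reverse]; omega
  | a :: x :: s, b :: y :: s', l'', p, q, r, h, h', h'' => by
    obtain rfl : a = q := by simpa using h.2.1
    obtain rfl : b = a := by simpa using h'.2.1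
    have h1 : (x :: s).getLast? = some p := by simpa using h.2.2
    have h1' : (y :: s').getLast? = some r := by simpa using h'.2.2
    have m1 := cnt_tail_le (fun a b c => U c b a) b (x :: s)
    have m2 := cnt_tail_le U b (y :: s')
    by_cases hxy : x = y
    · subst hxy
      have := tri U (x :: s) (x :: s') l'' p x r ⟨alt_tail h.1, rfl, h1⟩ ⟨alt_tail h'.1, rfl, h1'⟩ h''
      omega
    · rcases fork T h.1 h'.1 hxy with h2 | h2
      · have h3 : Pth T.r p r ((x :: s).reverse ++ (y :: s')) :=
          ⟨h2, by rw [List.head?_append, List.head?_reverse, h1]; rfl,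
            by rw [List.getLast?_append, h1']; rfl⟩
        rw [← unq T _ _ _ _ h3 h'']
        have := cnt_append_le U (x :: s).reverse (y :: s')
        rw [cnt_reverse] at this
        omega
      · have h3 : Pth T.r p r ((b :: x :: s).reverse ++ (y :: s')) :=
          ⟨h2, by rw [List.head?_append, List.head?_reverse, h.2.2]; rfl,
            by rw [List.getLast?_append, h1']; rfl⟩
        rw [← unq T _ _ _ _ h3 h'']
        have := cnt_append_le U (b :: x :: s).reverse (y :: s')
        rw [cnt_reverse] at this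
        omega

lemma tstep {p' p q : E} {τ : Bool} (h : T.r τ p' p) {l : List E}
    (hl : Pth T.r p q l) : ∃ l', Pth T.r p' q l' ∧ ∀ e ∈ l', e = p' ∨ e ∈ l := by
  by_cases hpp : p' = p
  · exact ⟨l, hpp ▸ hl, fun e he => Or.inr he⟩
  obtain ⟨h1, h2, h3⟩ := hl
  match l, h1, h2, h3 with
  | [], _, h2, _ => simp at h2
  | [a], _, h2, h3 =>
    obtain rfl : a = p := by simpa using h2
    exact ⟨[p', a], ⟨⟨hpp, τ, h⟩, rfl, by simpa using h3⟩, by simp⟩
  | a :: b :: t, h1, h2, h3 =>
    obtain rfl : a = p := by simpa using h2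
    by_cases hτ : T.r τ a b
    · by_cases hb : p' = b
      · subst hb
        exact ⟨p' :: t, ⟨alt_tail h1, rfl, by simpa using h3⟩, fun e he => Or.inr
          (List.mem_cons_of_mem _ he)⟩
      · refine ⟨p' :: b :: t, ⟨alt_swap T h1 hτ ((T.req τ).trans h hτ) hb, rfl,
          by simpa using h3⟩, ?_⟩
        intro e he
        rcases List.mem_cons.1 he with he | he
        · exact Or.inl he
        · exact Or.inr (List.mem_cons_of_mem _ he)
    · refine ⟨p' :: a :: b :: t, ⟨⟨⟨hpp, τ, h⟩, ?_, h1⟩, rfl, by simpa using h3⟩, ?_⟩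
      · intro τ' h5
        obtain rfl : τ' = τ := T_unique T hpp h5 h
        exact hτ
      · intro e he
        exact List.mem_cons.1 he

lemma crs : ∀ (c : List E) (p q : E) (l : List E),
    c.IsChain (fun a b => a = b ∨ ∃ τ, T.r τ a b) → c.head? = some p → c.getLast? = some q →
    Pth T.r p q l → ∀ e ∈ l, e ∈ c
  | [], _, _, _, _, h, _, _ => absurd h (by simp)
  | [a], p, q, l, _, h1, h2, h3 => by
    obtain rfl : a = p := by simpa using h1
    obtain rfl : a = q := by simpa using h2
    rw [T.noloop _ _ h3]; exact fun e he => he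
  | a :: b :: c, p, q, l, h0, h1, h2, h3 => by
    obtain rfl : a = p := by simpa using h1
    obtain ⟨l1, hl1⟩ := T.conn b q
    have ih := crs (b :: c) b q l1 (List.isChain_cons_cons.1 h0).2 rfl (by simpa using h2) hl1
    have hr : ∃ τ, T.r τ a b := by
      rcases (List.isChain_cons_cons.1 h0).1 with h | h
      · exact ⟨true, h ▸ (T.req true).refl _⟩
      · exact h
    obtain ⟨τ, hτ⟩ := hr
    obtain ⟨l', hl', hm⟩ := tstep T hτ hl1
    rw [unq T _ _ _ _ h3 hl']
    intro e he
    rcases hm e he with rfl | he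
    · exact List.mem_cons_self
    · exact List.mem_cons_of_mem _ (ih e he)

end trees

theorem t_UNQ.{u} : S_UNQ.{u} := fun _ T p q l l' => unq T l l' p q

theorem t_TRI.{u} : S_TRI.{u} := by
  intro E T U p q r l l' l'' h h' h''
  have h1 : Pth T.r q p l.reverse :=
    ⟨alt_reverse (fun τ _ _ h => T_symm T τ h) _ h.1, by rw [List.head?_reverse, h.2.2],
      by rw [List.getLast?_reverse, h.2.1]⟩
  have := tri T U l.reverse l' l'' p q r h1 h' h''
  have e : cnt (fun a b c => U c b a) l.reverse = cnt U l := by rw [cnt_reverse]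
  rwa [e] at this

theorem t_CRS.{u} : S_CRS.{u} := fun _ T p q c l h1 h2 h3 h4 => crs T c p q l h1 h2 h3 h4

theorem t_SUB.{u} : S_SUB.{u} := by
  intro E T U
  refine ⟨?_, ?_, ?_, cnt_split_le U, cnt_le_length U, exists_of_cnt_ne U⟩
  · intro p q l h
    exact ⟨alt_reverse (fun τ _ _ h => T_symm T τ h) _ h.1, by rw [List.head?_reverse, h.2.2],
      by rw [List.getLast?_reverse, h.2.1]⟩
  · intro hU l
    have : (fun a b c => U c b a) = U := by
      funext a b c
      exact propext ⟨fun h => hU _ _ _ h, fun h => hU _ _ _ h⟩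
    rw [cnt_reverse, this]
  · intro p q y u v h
    refine ⟨⟨?_, ?_, by simp⟩, ⟨alt_right _ _ h.1, rfl, ?_⟩⟩
    · have : u ++ y :: v = (u ++ [y]) ++ v := by simp
      have h1 := h.1
      rw [this] at h1
      exact alt_left _ _ h1
    · have := h.2.1
      rw [List.head?_append] at this ⊢
      simpa using this
    · have := h.2.2
      rwa [List.getLast?_append_cons] at this

end Pool.Agent.L0h97.AL
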