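import Pool.Agent.L0h29.AL.Defs2
import Pool.Agent.L0h97.AL.UNQ
import Pool.Agent.L0h97.AL.FRE

/-!
# Module STP of project AL, part 2: one reduction step
-/

set_option autoImplicit false

namespace Pool.Agent.L0h97.AL

open Pool.Agent.L0h29.AL

section Wl

variable {G : Type*} [Group G] {X : Set G}

lemma Wl_mono {g : G} {n n' : ℕ} (h : Wl X g n) (hn : n ≤ n') : Wl X g n' := by
  obtain ⟨l, h1, h2, h3⟩ := h
  exact ⟨l, h1.trans hn, h2, h3⟩

lemma Wl_one : Wl X (1 : G) 0 := ⟨[], le_rfl, by simp, rfl⟩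

lemma Wl_mul {g g' : G} {n n' : ℕ} (h : Wl X g n) (h' : Wl X g' n') : Wl X (g * g') (n + n') := by
  obtain ⟨l, h1, h2, h3⟩ := h
  obtain ⟨l', h1', h2', h3'⟩ := h'
  refine ⟨l ++ l', by rw [List.length_append]; omega, ?_, by rw [List.prod_append, h3, h3']⟩
  intro a ha
  rcases List.mem_append.1 ha with ha | ha
  · exact h2 a ha
  · exact h2' a ha

lemma Wl_inv {g : G} {n : ℕ} (h : Wl X g n) : Wl X g⁻¹ n := by
  obtain ⟨l, h1, h2, h3⟩ := h
  refine ⟨(l.map fun a => a⁻¹).reverse, by simpa using h1, ?_, ?_⟩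
  · intro a ha
    simp only [List.mem_reverse, List.mem_map] at ha
    obtain ⟨b, hb, rfl⟩ := ha
    rcases h2 b hb with h | h
    · right; simpa using h
    · left; exact h
  · rw [← h3, List.prod_inv_reverse]

lemma Wl_zpow {a : G} (ha : a ∈ X) (k : ℤ) : Wl X (a ^ k) k.natAbs := by
  rcases Int.natAbs_eq k with h | h
  · refine ⟨List.replicate k.natAbs a, by simp, ?_, ?_⟩
    · intro b hb
      rw [List.eq_of_mem_replicate hb]; exact Or.inl ha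
    · rw [List.prod_replicate]
      conv_rhs => rw [h]
      rw [zpow_natCast]
  · refine ⟨List.replicate k.natAbs a⁻¹, by simp, ?_, ?_⟩
    · intro b hb
      rw [List.eq_of_mem_replicate hb]; exact Or.inr (by simpa using ha)
    · rw [List.prod_replicate]
      conv_rhs => rw [h]
      rw [zpow_neg, zpow_natCast, inv_pow]

lemma Wl_ev {x : Bool → G} (hx : ∀ τ, x τ ∈ X) (l : List (Bool × ℤ)) : Wl X (ev x l) (lt l) := by
  induction l with
  | nil => exact Wl_one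
  | cons a l ih =>
    rw [ev_cons]
    exact Wl_mul (Wl_zpow (hx a.1) a.2) ih

end Wl

section lists

variable {E : Type*}

lemma first_split (P : E → Prop) : ∀ l : List E, (∃ a ∈ l, P a) →
    ∃ (A : List E) (y : E) (B : List E), l = A ++ y :: B ∧ P y ∧ ∀ a ∈ A, ¬ P a
  | [], h => by simp at h
  | b :: l, h => by
    by_cases hb : P b
    · exact ⟨[], b, l, rfl, hb, by simp⟩
    · have : ∃ a ∈ l, P a := by
        obtain ⟨a, ha, hPa⟩ := h
        rcases List.mem_cons.1 ha with rfl | ha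
        · exact absurd hPa hb
        · exact ⟨a, ha, hPa⟩
      obtain ⟨A, y, B, h1, h2, h3⟩ := first_split P l this
      refine ⟨b :: A, y, B, by rw [h1]; rfl, h2, ?_⟩
      intro a ha
      rcases List.mem_cons.1 ha with rfl | ha
      · exact hb
      · exact h3 a ha

lemma last_split (P : E → Prop) (l : List E) (h : ∃ a ∈ l, P a) :
    ∃ (A : List E) (y : E) (B : List E), l = A ++ y :: B ∧ P y ∧ ∀ a ∈ B, ¬ P a := by
  obtain ⟨A, y, B, h1, h2, h3⟩ := first_split P l.reverse (by simpa using h)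
  refine ⟨B.reverse, y, A.reverse, ?_, h2, by simpa using h3⟩
  have := congrArg List.reverse h1
  simpa using this

variable (U : E → E → E → Prop)

lemma cnt_mono_on {U U' : E → E → E → Prop} : ∀ l : List E,
    (∀ a ∈ l, ∀ b ∈ l, ∀ c ∈ l, U a b c → U' a b c) → cnt U l ≤ cnt U' l
  | [], _ => le_rfl
  | [_], _ => le_rfl
  | [_, _], _ => le_rfl
  | a :: b :: c :: t, h => by
    have ih := cnt_mono_on (U := U) (U' := U') (b :: c :: t) (fun x hx y hy z hz =>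
      h x (List.mem_cons_of_mem _ hx) y (List.mem_cons_of_mem _ hy) z (List.mem_cons_of_mem _ hz))
    rw [cnt_cons, cnt_cons]
    have := h a (by simp) b (by simp) c (by simp)
    split_ifs with h1 h2
    · omega
    · exact absurd (this h1) h2
    · omega
    · omega

lemma cnt_zero_left {P : E → Prop} (hU : ∀ a b c, U a b c → P a) (A : List E) (y : E)
    (hA : ∀ a ∈ A, ¬ P a) : cnt U (A ++ [y]) = 0 := by
  by_contra h
  obtain ⟨u, a, b, c, v, h1, h2⟩ := exists_of_cnt_ne U _ h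
  have h3 := hU _ _ _ h2
  rcases List.eq_nil_or_concat v with rfl | ⟨v', w, rfl⟩
  · have h4 : A ++ [y] = (u ++ [a, b]) ++ [c] := by rw [h1]; simp
    have h5 := (List.append_inj' h4 rfl).1
    exact hA a (by rw [h5]; simp) h3
  · have h4 : A ++ [y] = (u ++ a :: b :: c :: v') ++ [w] := by rw [h1]; simp
    have h5 := (List.append_inj' h4 rfl).1
    exact hA a (by rw [h5]; simp) h3

lemma cnt_zero_right {P : E → Prop} (hU : ∀ a b c, U a b c → P c) (y : E) (B : List E)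
    (hB : ∀ a ∈ B, ¬ P a) : cnt U (y :: B) = 0 := by
  by_contra h
  obtain ⟨u, a, b, c, v, h1, h2⟩ := exists_of_cnt_ne U _ h
  have h3 := hU _ _ _ h2
  cases u with
  | nil =>
    rw [List.nil_append, List.cons.injEq] at h1
    exact hB c (by rw [h1.2]; simp) h3
  | cons w u =>
    rw [List.cons_append, List.cons.injEq] at h1
    exact hB c (by rw [h1.2]; simp) h3

end lists

lemma T_rev {E : Type*} (T : ETree E) {p q : E} {l : List E} (h : Pth T.r p q l) :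
    Pth T.r q p l.reverse :=
  ⟨alt_reverse (fun τ _ _ h => T_symm T τ h) _ h.1, by rw [List.head?_reverse, h.2.2],
    by rw [List.getLast?_reverse, h.2.1]⟩

theorem t_STP.{u} (hFAM : S_FAM.{u}) (hCVX : S_CVX.{u}) (hEQV : S_EQV.{u}) (hUNI : S_UNI.{u})
    (hLOC : S_LOC.{u}) (hPRE : S_PRE.{u}) : S_STP.{u} := by
  intro G _ S T hT g hg hg1 n hn l hl
  have hm := S.hm'
  obtain ⟨h, k, hk, ha, hb⟩ := hFAM G S.toDat T hT g hg hg1
  have hal := ha l hl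
  -- the translate
  obtain ⟨w1, a, b, c, w2, hw, hU⟩ := exists_of_cnt_ne (S.U h) l (by omega)
  obtain ⟨u0, hu0, z, hz, hzx, f, hf, hh⟩ := hLOC G S T hT g n hn l hl h a b c
    (by rw [hw]; simp) (by rw [hw]; simp) (by rw [hw]; simp) hU
  have hE1 := fun g => hEQV G S.toDat T hT g
  have hUh : S.U h = S.U u0 := by
    rw [hh]; exact ((hE1 1).2.2.2.2.2 z f u0 hz hzx hf).1
  set k0 := (z * f) * k * (z * f)⁻¹ with hk0
  have hk0K : k0 ∈ S.K := (((hE1 1).2.2.2.2.2 z f u0 hz hzx hf).2 k).1 hk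
  have hk0F : k0 ∈ Subgroup.closure (Set.range S.x) := S.hK hk0K
  have hκ : h * k * h⁻¹ = u0 * k0 * u0⁻¹ := by rw [hh, hk0]; group
  rw [hUh] at hal hU
  have hb' : ∀ l2, Pth T.r ((1 : G) : G ⧸ S.C) ((u0 * k0 * u0⁻¹ * g : G) : G ⧸ S.C) l2 →
      cnt (S.U u0) l2 ≤ 33 := by
    intro l2 h2
    have := hb l2 (by rw [hκ]; exact h2)
    rwa [hUh] at this
  have hUsym : ∀ l, cnt (S.U u0) l.reverse = cnt (S.U u0) l := by
    intro l
    have : (fun a b c => S.U u0 c b a) = S.U u0 := by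
      funext a b c
      exact propext ⟨fun h => (hE1 1).2.2.2.1 _ _ _ _ h, fun h => (hE1 1).2.2.2.1 _ _ _ _ h⟩
    rw [cnt_reverse, this]
  have hUEd : ∀ a b c, S.U u0 a b c → S.Ed u0 a ∧ S.Ed u0 b ∧ S.Ed u0 c :=
    fun a b c h => (hE1 1).2.2.2.2.1 _ _ _ _ h
  -- the first and the last edge in the translate
  obtain ⟨A, y1, R, hAR, hy1, hA⟩ := first_split (S.Ed u0) l ⟨a, by rw [hw]; simp, (hUEd _ _ _ hU).1⟩
  obtain ⟨M, y2, B, hMB, hy2, hB⟩ := last_split (S.Ed u0) (y1 :: R) ⟨y1, by simp, hy1⟩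
  have hy1l : y1 ∈ l := by rw [hAR]; simp
  have hy2l : y2 ∈ l := by rw [hAR, hMB]; simp
  obtain ⟨-, -, hS3, hS4, -, -⟩ := t_SUB _ T S.UU
  obtain ⟨-, -, -, hS4', -, -⟩ := t_SUB _ T (S.U u0)
  obtain ⟨hP1, hPR⟩ := hS3 _ _ y1 A R (hAR ▸ hl)
  obtain ⟨hP2, hP3⟩ := hS3 _ _ y2 M B (hMB ▸ hPR)
  have hc1 := hS4 A y1 R
  have hc2 := hS4 M y2 B
  rw [← hAR] at hc1
  rw [← hMB] at hc2
  have hz1 : cnt (S.U u0) (A ++ [y1]) = 0 :=
    cnt_zero_left _ (fun a b c h => (hUEd a b c h).1) A y1 hA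
  have hz3 : cnt (S.U u0) (y2 :: B) = 0 :=
    cnt_zero_right _ (fun a b c h => (hUEd a b c h).2.2) y2 B hB
  have hup : cnt (S.U u0) l ≤ cnt (S.U u0) (M ++ [y2]) + 4 := by
    have e1 := t_TRI _ T (S.U u0) _ _ _ _ _ _ hP1 hPR hl
    have e2 := t_TRI _ T (S.U u0) _ _ _ _ _ _ hP2 hP3 hPR
    omega
  have hUU : cnt (S.U u0) (M ++ [y2]) ≤ cnt S.UU (M ++ [y2]) :=
    cnt_mono_on _ fun a _ b _ c _ h => ⟨u0, h⟩
  -- representatives
  obtain ⟨f1, hf1, hyf1⟩ := hy1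
  obtain ⟨f2, hf2, hyf2⟩ := hy2
  obtain ⟨-, q, hq1, hq2, -⟩ := hPRE G S T hT g n hn l hl
  have hlen : ∀ y ∈ l, ∀ f ∈ Subgroup.closure (Set.range S.x), y = ((u0 * f : G) : G ⧸ S.C) →
      ∃ w, Syl w ∧ ev S.x w = f ∧ lt w ≤ 5 * n := by
    intro y hy f hf hyf
    obtain ⟨w, hw, hwf⟩ := fre3 S.toDat f hf
    refine ⟨w, hw, hwf, ?_⟩
    have h1 := hq1 y hy
    rw [hyf] at h1
    have h2 : f⁻¹ * u0⁻¹ * q y ∈ S.C := by
      have := QuotientGroup.eq.1 h1.symm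
      rw [hyf]
      simpa [mul_assoc] using this
    refine S.r3 w hw _ h2 (5 * n) ?_
    have h3 : ev S.x w * (f⁻¹ * u0⁻¹ * q y) = u0⁻¹ * q y := by rw [hwf]; group
    rw [h3]
    exact Wl_mono (Wl_mul (Wl_inv hu0) (hq2 y hy)) (by omega)
  obtain ⟨v1, hv1, hv1f, hv1l⟩ := hlen y1 hy1l f1 hf1 hyf1
  obtain ⟨v2, hv2, hv2f, hv2l⟩ := hlen y2 hy2l f2 hf2 hyf2
  -- the middle path
  obtain ⟨m0, hm0, hm0f⟩ := fre3 S.toDat (f1⁻¹ * k0 * f2) (mul_mem (mul_mem (inv_mem hf1) hk0F) hf2)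
  set κ := u0 * k0 * u0⁻¹ with hκdef
  have hκy2 : κ • y2 = ((u0 * f1 * ev S.x m0 : G) : G ⧸ S.C) := by
    rw [hyf2, hm0f, MulAction.Quotient.smul_coe]
    congr 1
    rw [smul_eq_mul, hκdef]; group
  obtain ⟨p2, hp2⟩ := T.conn y1 (κ • y2)
  obtain ⟨hp2Ed, hp2c⟩ := hCVX G S.toDat T hT u0 f1 hf1 m0 hm0 p2 (by rw [← hκy2, ← hyf1]; exact hp2)
  have hp3 : Pth T.r (κ • y2) ((κ * g : G) : G ⧸ S.C) ((y2 :: B).map (κ • ·)) := by
    have := (hE1 κ).1 _ _ _ hP3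
    simpa using this
  have hp3UU : cnt S.UU ((y2 :: B).map (κ • ·)) = cnt S.UU (y2 :: B) := (hE1 κ).2.2.1 _
  have hp3U : cnt (S.U u0) ((y2 :: B).map (κ • ·)) = 0 := by
    have e1 := (hE1 κ).2.1 (u0 * (1 * k0⁻¹)) (y2 :: B)
    have e2 : κ * (u0 * (1 * k0⁻¹)) = u0 := by rw [hκdef]; group
    have e3 := ((hE1 1).2.2.2.2.2 1 k0⁻¹ u0 S.C.one_mem (fun τ => Commute.one_left _)
      (inv_mem hk0F)).1
    rw [e2, e3, hz3] at e1
    exact e1
  obtain ⟨lf, hlf⟩ := T.conn ((1 : G) : G ⧸ S.C) ((κ * g : G) : G ⧸ S.C)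
  have h33 := hb' lf hlf
  have hp2U : cnt (S.U u0) p2 ≤ 37 := by
    obtain ⟨p4, hp4⟩ := T.conn y1 ((κ * g : G) : G ⧸ S.C)
    have e1 := t_TRI _ T (S.U u0) _ _ _ _ _ _ (T_rev T hP1) hlf hp4
    have e2 := t_TRI _ T (S.U u0) _ _ _ _ _ _ hp4 (T_rev T hp3) hp2
    rw [hUsym] at e1 e2
    omega
  have hp2UU : cnt S.UU p2 ≤ 37 := by
    refine le_trans (cnt_mono_on _ ?_) hp2U
    rintro a ha b hb c hc ⟨h', hU'⟩
    exact hUNI G S.toDat u0 h' a b c hU' (hp2Ed a ha) (hp2Ed b hb) (hp2Ed c hc)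
  -- the length of `k0`
  obtain ⟨k1, hk1, hk1f⟩ := fre3 S.toDat k0 hk0F
  refine ⟨u0, k1, hu0, hk1, by rw [hk1f]; exact hk0K, ?_, ?_⟩
  · obtain ⟨v, hv, hvf⟩ := fre3 S.toDat (f1⁻¹ * f2) (mul_mem (inv_mem hf1) hf2)
    have hvl : lt v ≤ 10 * n := by
      refine S.r3 v hv 1 S.C.one_mem (10 * n) ?_
      rw [mul_one, hvf, ← hv1f, ← hv2f]
      exact Wl_mono (Wl_mul (Wl_inv (Wl_ev S.xX v1)) (Wl_ev S.xX v2)) (by omega)
    have hml : lt m0 ≤ S.m * lt v := by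
      refine S.dl v m0 hv hm0 (by omega) ?_
      rw [hvf, hm0f]
      have : (f1⁻¹ * f2)⁻¹ * (f1⁻¹ * k0 * f2) = f2⁻¹ * k0 * (f2⁻¹)⁻¹ := by group
      rw [this]
      exact S.nK _ (inv_mem hf2) _ hk0K
    refine S.r3 k1 hk1 1 S.C.one_mem _ ?_
    have e1 : ev S.x k1 * 1 = ev S.x v1 * ev S.x m0 * (ev S.x v2)⁻¹ := by
      rw [hk1f, hv1f, hm0f, hv2f]; group
    rw [e1]
    refine Wl_mono (Wl_mul (Wl_mul (Wl_ev S.xX v1) (Wl_ev S.xX m0)) (Wl_inv (Wl_ev S.xX v2))) ?_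
    have : S.m * lt v ≤ S.m * (10 * n) := Nat.mul_le_mul_left _ hvl
    have e2 : 10 * (S.m + 1) * n = S.m * (10 * n) + 10 * n := by ring
    rw [e2]; omega
  · intro l' hl'
    rw [hk1f] at hl'
    obtain ⟨p4, hp4⟩ := T.conn y1 ((κ * g : G) : G ⧸ S.C)
    have e1 := t_TRI _ T S.UU _ _ _ _ _ _ hP1 hp4 hl'
    have e2 := t_TRI _ T S.UU _ _ _ _ _ _ hp2 hp3 hp4
    rw [hp3UU] at e2
    omega

end Pool.Agent.L0h97.AL
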