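import Pool.Agent.L0h29.AL.ArtDefs2
import Pool.Agent.K7.H20.AW.Flag
import Pool.Agent.L0h97.AL.STP

/-!
# Module RTR of project AL, part 2: the set retractions onto standard parabolic subgroups
-/

set_option autoImplicit false
set_option linter.unusedSectionVars false

namespace Pool.Agent.L0h97.AL

open Pool.Agent.L0h29.AL Pool.Agent.Helper741 Pool.Agent.K7.H87.FJ6 Pool.Agent.K7.H20.AW CoxeterSystem

variable {B : Type*} [Fintype B] [DecidableEq B] (M : CoxeterMatrix B) (Y : Set B)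

lemma mem_P_univ (x : Art M) : x ∈ P M Set.univ := by
  induction x using Sh.induction with
  | one => exact one_mem _
  | gen i => exact g_mem (Set.mem_univ i)
  | mul x y hx hy => exact mul_mem hx hy
  | inv x hx => exact inv_mem hx

/-- the inclusion of `Y` -/
abbrev io : Y → B := Subtype.val

/-- the base point -/
noncomputable abbrev pp : {v : M.Group // Mn M.toCoxeterSystem (io Y) v} :=
  ⟨1, Mn_one M.toCoxeterSystem (io Y)⟩

/-- the label -/
noncomputable def lb (x : Art M) : Art M :=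
  inc M (z0 B) (io Y) Subtype.val_injective
    (ac M.toCoxeterSystem (io Y) Subtype.val_injective x (1, pp M Y)).1

/-- the retraction -/
noncomputable def rt (x : Art M) : Art M := (lb M Y x⁻¹)⁻¹

lemma lb_mul (x y : Art M) (hy : y ∈ P M Y) : lb M Y (x * y) = lb M Y x * y := by
  have hr : Set.range (io Y) = Y := Subtype.range_coe
  have hy' : y ∈ P M (Set.range (io Y)) := by rw [hr]; exact hy
  obtain ⟨a, rfl⟩ := P_range (hι := Subtype.val_injective) hy'
  unfold lb
  have h1 := ac_right (cs := M.toCoxeterSystem) (ι := io Y) (hι := Subtype.val_injective) x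
    (1, pp M Y) a
  rw [map_mul, Equiv.Perm.mul_apply, ac_inc, mul_one]
  rw [one_mul] at h1
  have h2 := congrArg Prod.fst h1
  rw [← map_mul]
  exact congrArg _ h2

lemma lb_supp (V : Set B) (x : Art M) (hx : x ∈ P M V) : lb M Y x ∈ P M (Y ∩ V) := by
  obtain ⟨c, hc, v, _, e⟩ := tk_one (cs := M.toCoxeterSystem) (ι := io Y)
    (hι := Subtype.val_injective) hx 1 (pp M Y) (one_mem _)
  unfold lb
  rw [e, mul_one]
  refine P_mono ?_ (inc_mem hc)
  rintro _ ⟨y, hy, rfl⟩
  exact ⟨y.2, hy⟩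

lemma step_gen (b : B) (a : Sh (pull M (io Y) Subtype.val_injective) (z0 B ∘ io Y))
    (v : {v : M.Group // Mn M.toCoxeterSystem (io Y) v}) (σ : Bool) :
    ∃ c, Wl (g M '' Y) (inc M (z0 B) (io Y) Subtype.val_injective c) 1 ∧ ∃ v',
      ac M.toCoxeterSystem (io Y) Subtype.val_injective (if σ then g M b else (g M b)⁻¹) (a, v) =
        (c * a, v') := by
  by_cases h : ∃ x, M.toCoxeterSystem.simple b * v.1 = v.1 * M.toCoxeterSystem.simple (io Y x)
  · obtain ⟨x, hx⟩ := h
    have hg : g M (io Y x) ∈ g M '' Y := ⟨_, x.2, rfl⟩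
    cases σ with
    | true =>
      refine ⟨Sh.gen _ _ x, ?_, v, ac_pos hx⟩
      rw [inc_gen]
      exact ⟨[g M (io Y x)], le_rfl, fun a ha => Or.inl (by rw [List.mem_singleton.1 ha]; exact hg),
        by simp⟩
    | false =>
      refine ⟨(Sh.gen _ _ x)⁻¹, ?_, v, ac_inv_pos hx⟩
      rw [map_inv, inc_gen]
      exact ⟨[(g M (io Y x))⁻¹], le_rfl, fun a ha => Or.inr (by
        rw [List.mem_singleton.1 ha, inv_inv]; exact hg), by simp⟩
  · refine ⟨1, ?_, ?_⟩
    · rw [map_one]; exact ⟨[], by simp, by simp, rfl⟩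
    · cases σ with
      | true => exact ⟨_, by rw [one_mul]; exact ac_neg h⟩
      | false => exact ⟨_, by rw [one_mul]; exact ac_inv_neg h⟩

lemma step_list : ∀ (l : List (Art M)), (∀ a ∈ l, a ∈ Set.range (g M) ∨ a⁻¹ ∈ Set.range (g M)) →
    ∀ (a : Sh (pull M (io Y) Subtype.val_injective) (z0 B ∘ io Y))
    (v : {v : M.Group // Mn M.toCoxeterSystem (io Y) v}),
    ∃ c, Wl (g M '' Y) (inc M (z0 B) (io Y) Subtype.val_injective c) l.length ∧ ∃ v',
      ac M.toCoxeterSystem (io Y) Subtype.val_injective l.prod (a, v) = (c * a, v')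
  | [], _, a, v => ⟨1, by rw [map_one]; exact Wl_one, v, by
      rw [List.prod_nil, map_one, one_mul]; rfl⟩
  | x :: l, h, a, v => by
    obtain ⟨c, hc, v', e⟩ := step_list l (fun b hb => h b (List.mem_cons_of_mem _ hb)) a v
    obtain ⟨b, σ, hbσ⟩ : ∃ (b : B) (σ : Bool), x = if σ then g M b else (g M b)⁻¹ := by
      rcases h x List.mem_cons_self with ⟨b, hb⟩ | ⟨b, hb⟩
      · exact ⟨b, true, hb.symm⟩
      · exact ⟨b, false, by rw [if_neg (by simp), hb, inv_inv]⟩
    obtain ⟨c', hc', v'', e'⟩ := step_gen M Y b (c * a) v' σ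
    refine ⟨c' * c, ?_, v'', ?_⟩
    · rw [map_mul, List.length_cons, add_comm]
      exact Wl_mul hc' hc
    · rw [List.prod_cons, map_mul, Equiv.Perm.mul_apply, e, hbσ, e', mul_assoc]

lemma lb_wl (x : Art M) (n : ℕ) (hx : Wl (Set.range (g M)) x n) : Wl (g M '' Y) (lb M Y x) n := by
  obtain ⟨l, h1, h2, rfl⟩ := hx
  obtain ⟨c, hc, v', e⟩ := step_list M Y l h2 1 (pp M Y)
  unfold lb
  rw [e, mul_one]
  exact Wl_mono hc h1

lemma lb_odd (b : B) (hb : b ∉ Y) (x : Art M) (hx : x ∈ P M Y) (k : ℤ) (hk : Odd k) :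
    lb M Y (x * g M b ^ k) ∈ P M {y | y ∈ Y ∧ M y b = 2} := by
  let cs := M.toCoxeterSystem
  have h0 : ¬ ∃ y, cs.simple b * 1 = 1 * cs.simple (io Y y) := by
    rintro ⟨y, hy⟩
    rw [mul_one, one_mul] at hy
    exact hb (simple_injective cs hy ▸ y.2)
  let pb : {v : M.Group // Mn cs (io Y) v} :=
    ⟨cs.simple b * 1, Mn_move cs (io Y) (Mn_one cs (io Y)) h0⟩
  have a1 : ∀ a, ac cs (io Y) Subtype.val_injective (g M b) (a, pp M Y) = (a, pb) :=
    fun a => ac_neg h0
  have a2 : ∀ a, ac cs (io Y) Subtype.val_injective (g M b) (a, pb) = (a, pp M Y) := by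
    intro a
    rw [ac_neg (v := pb) (back cs (io Y) h0)]
    refine Prod.ext rfl (Subtype.ext ?_)
    show cs.simple b * (cs.simple b * 1) = 1
    rw [mul_one, cs.simple_mul_simple_self]
  have ht : Tk cs (io Y) Subtype.val_injective {y | M (io Y y) b = 2}
      {v | ∃ w ∈ PW cs Y, v = w * cs.simple b} x := by
    refine track ?_ ?_ hx
    · rintro d hd v ⟨w, hw, rfl⟩
      exact ⟨cs.simple d * w, mul_mem (PW_mem cs hd) hw, (mul_assoc _ _ _).symm⟩
    · rintro d hd v ⟨w, hw, rfl⟩ y hy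
      refine comm_of_mem cs (V := Y) (b := b) (x := io Y y) hb (fun h => hb (h ▸ y.2)) ?_
      have hb' := cs.simple_mul_simple_self b
      have h3 : cs.simple b * cs.simple (io Y y) * cs.simple b = w⁻¹ * cs.simple d * w := by
        calc cs.simple b * cs.simple (io Y y) * cs.simple b
            = w⁻¹ * ((w * cs.simple b) * cs.simple (io Y y)) * cs.simple b := by group
          _ = w⁻¹ * (cs.simple d * (w * cs.simple b)) * cs.simple b := by rw [hy]
          _ = w⁻¹ * cs.simple d * w * (cs.simple b * cs.simple b) := by group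
          _ = w⁻¹ * cs.simple d * w := by rw [hb', mul_one]
      rw [h3]
      exact mul_mem (mul_mem (inv_mem hw) (PW_mem cs hd)) hw
  obtain ⟨c, hc, v', _, e⟩ := ht 1 pb ⟨1, one_mem _, by
    show cs.simple b * 1 = 1 * cs.simple b
    rw [mul_one, one_mul]⟩
  have e2 : ac cs (io Y) Subtype.val_injective (x * g M b ^ k) (1, pp M Y) = (c * 1, v') := by
    rw [map_mul, map_zpow, Equiv.Perm.mul_apply, (zpow_swap _ (a1 1) (a2 1) k).2 hk, e]
  have e3 : lb M Y (x * g M b ^ k) = inc M (z0 B) (io Y) Subtype.val_injective c := by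
    have := congrArg (fun p => inc M (z0 B) (io Y) Subtype.val_injective p.1) e2
    simp only [mul_one] at this
    exact this
  rw [e3]
  refine P_mono ?_ (inc_mem hc)
  rintro _ ⟨y, hy, rfl⟩
  exact ⟨y.2, hy⟩

theorem t_RTR.{u} : S_RTR.{u} := by
  intro B _ _ M Y
  refine ⟨rt M Y, ?_, ?_, ?_, ?_, ?_, ?_⟩
  · intro x
    exact inv_mem (P_mono Set.inter_subset_left (lb_supp M Y Set.univ _ (mem_P_univ M _)))
  · intro y hy x
    unfold rt
    rw [mul_inv_rev, lb_mul M Y _ _ (inv_mem hy)]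
    group
  · unfold rt lb
    rw [inv_one, map_one, Equiv.Perm.one_apply, map_one, inv_one]
  · intro x n hx
    exact Wl_inv (lb_wl M Y _ n (Wl_inv hx))
  · intro V x hx
    exact inv_mem (lb_supp M Y V _ (inv_mem hx))
  · intro b hb x hx k hk
    have : (g M b ^ k * x)⁻¹ = x⁻¹ * g M b ^ (-k) := by group
    unfold rt
    rw [this]
    exact inv_mem (lb_odd M Y b hb _ (inv_mem hx) _ hk.neg)

end Pool.Agent.L0h97.AL
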